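import Mathlib

/-! Capacity counting along generators of a cofinite submonoid of a linearly ordered monoid. -/

set_option autoImplicit false

namespace Pool.Agent.H306Z.Wilf

open Finset

variable {A : Type*} [AddCommMonoid A] [LinearOrder A] [IsOrderedCancelAddMonoid A]

theorem nsmul_inj_of_pos {g0 : A} (h : 0 < g0) {a b : ℕ} (hab : a • g0 = b • g0) : a = b :=
  (nsmul_left_strictMono h).injective hab

theorem cap (h0 : ∀ a : A, 0 ≤ a) (S : AddSubmonoid A) (F g0 g : A) (hg0 : g0 ∈ S)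
    (hg0pos : 0 < g0) (hg : g ∈ S) (N : Finset A) (hN : ∀ v ∈ S, v ≤ F → v ∈ N)
    {ι : Type*} (T : Finset ι) (z : ι → A) (x k : ι → ℕ)
    (hz : ∀ t ∈ T, F < z t)
    (hx : ∀ t ∈ T, ∃ v ∈ S, v + x t • g = z t)
    (hk : ∀ t ∈ T, ∀ κ < k t, z t + κ • g0 ≤ F + g)
    (hinj : ∀ t ∈ T, ∀ t' ∈ T, ∀ a b : ℕ, z t + a • g0 = z t' + b • g0 → t = t') :
    ∑ t ∈ T, x t * k t ≤ N.card := by
  classical
  have hU : (T.sigma fun t => range (x t) ×ˢ range (k t)).card = ∑ t ∈ T, x t * k t := by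
    rw [card_sigma]
    simp
  rw [← hU]
  apply card_le_card_of_forall_subsingleton
    (fun (u : Σ _ : ι, ℕ × ℕ) (w : A) => w + (u.2.1 + 1) • g = z u.1 + u.2.2 • g0)
  · rintro ⟨t, i, κ⟩ hu
    simp only [mem_sigma, mem_product, mem_range] at hu
    obtain ⟨ht, hi, hκ⟩ := hu
    obtain ⟨v, hv, hvz⟩ := hx t ht
    have e1 : v + (x t - (i + 1)) • g + κ • g0 + (i + 1) • g = z t + κ • g0 := by
      rw [← hvz]
      have : x t = (x t - (i + 1)) + (i + 1) := by omega
      conv_rhs => rw [this, add_nsmul]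
      abel
    refine ⟨v + (x t - (i + 1)) • g + κ • g0, hN _ ?_ ?_, e1⟩
    · exact S.add_mem (S.add_mem hv (S.nsmul_mem hg _)) (S.nsmul_mem hg0 _)
    · have h1 := hk t ht κ hκ
      rw [← e1, succ_nsmul, ← add_assoc] at h1
      have h2 := le_of_add_le_add_right h1
      exact le_trans (le_add_of_nonneg_right (h0 _)) h2
  · intro w _
    rintro ⟨t, i, κ⟩ ⟨hu, h1⟩ ⟨t', i', κ'⟩ ⟨hu', h1'⟩
    simp only [mem_product, mem_range, mem_sigma] at hu hu' h1 h1'
    obtain ⟨ht, hi, hκ⟩ := hu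
    obtain ⟨ht', hi', hκ'⟩ := hu'
    have key : ∀ (t t' : ι) (i i' κ κ' : ℕ), t ∈ T → t' ∈ T → κ' < k t' →
        w + (i + 1) • g = z t + κ • g0 → w + (i' + 1) • g = z t' + κ' • g0 → ¬ i < i' := by
      intro t t' i i' κ κ' ht ht' hκ' h1 h1' hlt
      have a1 : F < w + (i + 1) • g := by
        rw [h1]; exact lt_of_lt_of_le (hz t ht) (le_add_of_nonneg_right (h0 _))
      have a2 := hk t' ht' κ' hκ'
      rw [← h1'] at a2
      obtain ⟨r, rfl⟩ := Nat.exists_eq_add_of_lt hlt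
      have a3 : w + (i + r + 1 + 1) • g = w + (i + 1) • g + r • g + g := by
        simp only [add_nsmul, one_nsmul]; abel
      rw [a3] at a2
      have a4 := le_of_add_le_add_right a2
      have a5 : w + (i + 1) • g ≤ w + (i + 1) • g + r • g := le_add_of_nonneg_right (h0 _)
      exact absurd (lt_of_lt_of_le a1 (a5.trans a4)) (lt_irrefl _)
    have hii : i = i' := by
      have b1 := key t t' i i' κ κ' ht ht' hκ' h1 h1'
      have b2 := key t' t i' i κ' κ ht' ht hκ h1' h1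
      omega
    subst hii
    have hzz : z t + κ • g0 = z t' + κ' • g0 := by rw [← h1, ← h1']
    have htt := hinj t ht t' ht' κ κ' hzz
    subst htt
    have hkk := nsmul_inj_of_pos hg0pos (add_left_cancel hzz)
    subst hkk
    rfl

theorem total (h0 : ∀ a : A, 0 ≤ a) (S : AddSubmonoid A) (F g0 : A) (hg0 : g0 ∈ S)
    (hg0pos : 0 < g0) (G : Finset A) (hG : ∀ g ∈ G, g ∈ S)
    (N : Finset A) (hN : ∀ v ∈ S, v ≤ F → v ∈ N)
    {ι : Type*} (T : Finset ι) (z : ι → A) (x k : ι → A → ℕ)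
    (hz : ∀ t ∈ T, F < z t)
    (hx : ∀ t ∈ T, ∑ g ∈ G, x t g • g = z t)
    (hk : ∀ t ∈ T, ∀ g ∈ G, ∀ κ < k t g, z t + κ • g0 ≤ F + g)
    (hinj : ∀ t ∈ T, ∀ t' ∈ T, ∀ a b : ℕ, z t + a • g0 = z t' + b • g0 → t = t') :
    ∑ t ∈ T, ∑ g ∈ G, x t g * k t g ≤ G.card * N.card := by
  classical
  rw [sum_comm]
  calc ∑ g ∈ G, ∑ t ∈ T, x t g * k t g ≤ ∑ _g ∈ G, N.card := by
        apply sum_le_sum
        intro g hg
        apply cap h0 S F g0 g hg0 hg0pos (hG g hg) N hN T z (fun t => x t g) (fun t => k t g) hz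
        · intro t ht
          refine ⟨∑ g' ∈ G.erase g, x t g' • g', ?_, ?_⟩
          · exact S.sum_mem fun g' hg' => S.nsmul_mem (hG g' (mem_of_mem_erase hg')) _
          · rw [← hx t ht]
            exact sum_erase_add G (fun g' => x t g' • g') hg
        · intro t ht
          exact hk t ht g hg
        · exact hinj
    _ = G.card * N.card := by simp

/-- every element of a submonoid of a well-ordered monoid is a sum of irreducible elements -/
theorem factor [WellFoundedLT A] (h0 : ∀ a : A, 0 ≤ a) (S : AddSubmonoid A) (G : Finset A)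
    (hG : ∀ s ∈ S, s ≠ 0 → (∀ a ∈ S, ∀ b ∈ S, a + b = s → a = 0 ∨ b = 0) → s ∈ G) :
    ∀ s ∈ S, ∃ x : A → ℕ, ∑ g ∈ G, x g • g = s := by
  classical
  intro s
  induction s using WellFoundedLT.induction with
  | ind s ih =>
    intro hs
    by_cases hs0 : s = 0
    · exact ⟨fun _ => 0, by simp [hs0]⟩
    by_cases hirr : ∀ a ∈ S, ∀ b ∈ S, a + b = s → a = 0 ∨ b = 0
    · refine ⟨fun g => if g = s then 1 else 0, ?_⟩
      have := hG s hs hs0 hirr
      simp [ite_smul, this]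
    · push Not at hirr
      obtain ⟨a, ha, b, hb, hab, ha0, hb0⟩ := hirr
      have hapos : 0 < a := lt_of_le_of_ne (h0 a) (Ne.symm ha0)
      have hbpos : 0 < b := lt_of_le_of_ne (h0 b) (Ne.symm hb0)
      obtain ⟨xa, hxa⟩ := ih a (by rw [← hab]; exact lt_add_of_pos_right a hbpos) ha
      obtain ⟨xb, hxb⟩ := ih b (by rw [← hab]; exact lt_add_of_pos_left b hapos) hb
      refine ⟨fun g => xa g + xb g, ?_⟩
      simp only [add_nsmul, sum_add_distrib, hxa, hxb, hab]

end Pool.Agent.H306Z.Wilf
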