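import Pool.Agent.H306Z.Wilf.Ray

/-! The extended Wilf inequality in dimension at least two. -/

set_option autoImplicit false

namespace Pool.Agent.H306Z.Wilf

open Finset

theorem mid {A : Type*} [AddCommMonoid A] [LinearOrder A] [IsOrderedCancelAddMonoid A]
    {d : ℕ} (hd : 2 ≤ d) (φ : A ≃+ (Fin d → ℕ)) (h0 : ∀ a : A, 0 ≤ a)
    (hfin : ∀ a : A, {x | x < a}.Finite) (S : AddSubmonoid A) (F : A) (hFS : F ∉ S)
    (hF : ∀ z, F < z → z ∈ S) :
    {x | x ∈ S ∧ x < F}.ncard + {x | x ∉ S}.ncard + 1 ≤
      {x | x ∈ S ∧ x < F}.ncard *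
        {g | g ∈ S ∧ g ≠ 0 ∧ ∀ a ∈ S, ∀ b ∈ S, a + b = g → a = 0 ∨ b = 0}.ncard := by
  classical
  have hfin' : ∀ a : A, {x | x ≤ a}.Finite := by
    intro a
    refine ((hfin a).insert a).subset ?_
    intro x hx
    rcases eq_or_lt_of_le (show x ≤ a from hx) with h | h
    · left; exact h
    · right; exact h
  have harch : ∀ b : A, 0 < b → ∀ a : A, ∃ i : ℕ, a < i • b := by
    intro b hb a
    by_contra hc
    push Not at hc
    exact Set.infinite_of_injective_forall_mem (f := fun i : ℕ => i • b)
      (nsmul_left_strictMono hb).injective hc (hfin' a)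
  have : WellFoundedLT A := by
    have hm : StrictMono fun a : A => {x | x < a}.ncard := by
      intro a b hab
      apply Set.ncard_lt_ncard _ (hfin b)
      refine ⟨fun x hx => lt_trans hx hab, fun h => ?_⟩
      exact absurd (h hab) (lt_irrefl a)
    exact hm.wellFoundedLT
  -- unit vectors
  let u : Fin d → A := fun i => φ.symm (Pi.single i 1)
  have hu : ∀ i, φ (u i) = Pi.single i 1 := fun i => φ.apply_symm_apply _
  have hupos : ∀ i, 0 < u i := by
    intro i
    refine lt_of_le_of_ne (h0 _) fun h => ?_
    have := congrFun (hu i) i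
    rw [← h, map_zero] at this
    simp at this
  have hle : ∀ a b : A, (∀ i, φ a i ≤ φ b i) → ∃ c, b = a + c := by
    intro a b h
    refine ⟨φ.symm (fun i => φ b i - φ a i), φ.injective ?_⟩
    rw [map_add, φ.apply_symm_apply]
    funext i
    have := h i
    simp only [Pi.add_apply]
    omega
  have hle' : ∀ a b : A, (∀ i, φ a i ≤ φ b i) → a ≤ b := by
    intro a b h
    obtain ⟨c, rfl⟩ := hle a b h
    exact le_add_of_nonneg_right (h0 c)
  have hsm : ∀ (n : ℕ) (i j : Fin d), φ (n • u i) j = if j = i then n else 0 := by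
    intro n i j
    rw [map_nsmul, hu]
    by_cases h : j = i
    · subst h; simp
    · simp [h]
  -- the least nonzero element
  have hSne : {s | s ∈ S ∧ s ≠ 0}.Nonempty := by
    have hlt : F < F + u ⟨0, by omega⟩ := lt_add_of_pos_right _ (hupos _)
    exact ⟨_, hF _ hlt, (lt_of_le_of_lt (h0 F) hlt).ne'⟩
  obtain ⟨g0, ⟨hg0S, hg0ne⟩, hg0min⟩ := wellFounded_lt.has_min _ hSne
  have hg0pos : 0 < g0 := lt_of_le_of_ne (h0 _) (Ne.symm hg0ne)
  -- finiteness of the generators
  have hGfin : {g | g ∈ S ∧ g ≠ 0 ∧ ∀ a ∈ S, ∀ b ∈ S, a + b = g → a = 0 ∨ b = 0}.Finite := by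
    choose M hM using fun i => harch (u i) (hupos i) F
    have hbox : {f : Fin d → ℕ | ∀ i, f i ≤ 2 * M i}.Finite := by
      have := Set.Finite.pi' (fun i => Set.finite_Iic (2 * M i))
      exact this
    refine (hbox.preimage φ.injective.injOn).subset ?_
    rintro g ⟨_, _, hirr⟩ i
    by_contra hc
    push Not at hc
    obtain ⟨c, hgc⟩ := hle (M i • u i) g (by
      intro j
      rw [hsm]
      split_ifs with h
      · subst h; omega
      · omega)
    have hc2 : M i • u i ≤ c := by
      apply hle'
      intro j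
      rw [hsm]
      split_ifs with h
      · subst h
        have := congrFun (congrArg φ hgc) j
        rw [map_add, Pi.add_apply, hsm, if_pos rfl] at this
        omega
      · omega
    have hp : 0 < M i • u i := lt_of_le_of_lt (h0 F) (hM i)
    rcases hirr _ (hF _ (hM i)) c (hF _ (lt_of_lt_of_le (hM i) hc2)) hgc.symm with h | h
    · exact hp.ne' h
    · exact (lt_of_lt_of_le hp hc2).ne' h
  -- the two directions
  obtain ⟨i0, hi0⟩ : ∃ i, φ g0 i ≠ 0 := by
    by_contra hc
    push Not at hc
    apply hg0ne
    apply φ.injective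
    rw [map_zero]
    funext i
    exact hc i
  have : Nontrivial (Fin d) := Fin.nontrivial_iff_two_le.mpr hd
  obtain ⟨k, hk⟩ := exists_ne i0
  let c : A → Fin d := fun o => if φ o i0 < φ g0 i0 then k else i0
  let β : A → A →+ ℕ := fun o =>
    (Pi.evalAddMonoidHom (fun _ : Fin d => ℕ) (c o)).comp φ.toAddMonoidHom
  have hβ0 : ∀ o a, β o a = φ a (c o) := fun o a => rfl
  let P : A → Prop := fun o =>
    (φ o i0 < φ g0 i0 ∧ φ o k = 0) ∨ (φ o i0 = φ g0 i0 ∧ ∃ l, l ≠ i0 ∧ φ o l < φ g0 l)
  let O : Finset A := (hfin' F).toFinset.filter P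
  have hO : ∀ o, o ∈ O ↔ o ≤ F ∧ P o := by
    intro o
    simp [O]
  have hE : ∀ o, P o → ∀ y : ℕ, ∃ l, φ (o + y • u (c o)) l < φ g0 l := by
    intro o ho y
    rcases ho with ⟨h1, _⟩ | ⟨h1, l, hl, h2⟩
    · refine ⟨i0, ?_⟩
      have : c o = k := if_pos h1
      rw [map_add, Pi.add_apply, hsm, this, if_neg hk.symm]
      omega
    · refine ⟨l, ?_⟩
      have : c o = i0 := if_neg (by omega)
      rw [map_add, Pi.add_apply, hsm, this, if_neg hl]
      omega
  have hNfin : {x | x ∈ S ∧ x < F}.Finite := (hfin F).subset fun x hx => hx.2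
  have hmain := global h0 harch S F g0 hF hg0S hg0pos hGfin.toFinset
    (by intro g hg; rw [Set.Finite.mem_toFinset] at hg; exact hg.1)
    (by
      intro g hg
      rw [Set.Finite.mem_toFinset] at hg
      exact not_lt.mp (hg0min g ⟨hg.1, hg.2.1⟩))
    (factor h0 S _ (by
      intro s hs hs0 hirr
      rw [Set.Finite.mem_toFinset]
      exact ⟨hs, hs0, hirr⟩))
    hNfin.toFinset
    (by
      intro v hv hvF
      rw [Set.Finite.mem_toFinset]
      refine ⟨hv, lt_of_le_of_ne hvF ?_⟩
      rintro rfl
      exact hFS hv)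
    (hfin' F).toFinset (by intro v hv; rwa [Set.Finite.mem_toFinset] at hv)
    O (fun o => u (c o)) β (fun o ho => ((hO o).1 ho).1)
    ⟨0, (hO 0).2 ⟨h0 F, Or.inl ⟨by rw [map_zero]; simp; omega, by rw [map_zero]; rfl⟩⟩⟩
    (fun o => hupos _)
    (by
      intro o a
      apply hle'
      intro j
      rw [hsm, hβ0]
      split_ifs with h
      · rw [h]
      · omega)
    (by
      intro o
      rw [hβ0, hu]
      simp)
    (by
      intro v hv
      -- remove as many copies of `g0` as possible
      have hex : ∃ i : ℕ, ¬ ∀ j, φ ((i + 1) • g0) j ≤ φ v j := by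
        obtain ⟨i, hi⟩ := harch g0 hg0pos v
        refine ⟨i, fun h => ?_⟩
        have h1 := hle' _ _ h
        rw [succ_nsmul] at h1
        exact absurd (lt_of_lt_of_le hi (le_trans (le_add_of_nonneg_right (h0 _)) h1))
          (lt_irrefl _)
      obtain ⟨i, hi1, hi2⟩ : ∃ i : ℕ, (¬ ∀ j, φ ((i + 1) • g0) j ≤ φ v j) ∧
          ∀ j, φ (i • g0) j ≤ φ v j := by
        refine ⟨Nat.find hex, Nat.find_spec hex, ?_⟩
        rcases Nat.eq_zero_or_pos (Nat.find hex) with h | h
        · rw [h, zero_nsmul, map_zero]; intro j; simp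
        · have := Nat.find_min hex (show Nat.find hex - 1 < Nat.find hex by omega)
          have e1 : Nat.find hex - 1 + 1 = Nat.find hex := by omega
          rw [e1] at this
          exact not_not.mp this
      obtain ⟨p, hp⟩ := hle _ _ hi2
      push Not at hi1
      obtain ⟨l, hl⟩ := hi1
      have hpl : φ p l < φ g0 l := by
        rw [hp, succ_nsmul, map_add, map_add, Pi.add_apply, Pi.add_apply] at hl
        omega
      by_cases h1 : φ p i0 < φ g0 i0
      · obtain ⟨o, ho⟩ := hle (φ p k • u k) p (by
          intro j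
          rw [hsm]
          split_ifs with h
          · rw [h]
          · omega)
        have ho' : ∀ j, φ p j = (if j = k then φ p k else 0) + φ o j := by
          intro j
          conv_lhs => rw [ho]
          rw [map_add, Pi.add_apply, hsm]
        have hoi : φ o i0 < φ g0 i0 := by
          have := ho' i0
          rw [if_neg hk.symm] at this
          omega
        have hok : φ o k = 0 := by
          have := ho' k
          rw [if_pos rfl] at this
          omega
        have hc : c o = k := if_pos hoi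
        have hv' : v = o + φ p k • u (c o) + i • g0 := by
          rw [hc, add_comm o, ← ho, add_comm]
          exact hp
        refine ⟨o, (hO o).2 ⟨?_, Or.inl ⟨hoi, hok⟩⟩, φ p k, i, hv'⟩
        refine le_trans ?_ hv
        rw [hv', add_assoc]
        exact le_add_of_nonneg_right (h0 _)
      · obtain ⟨o, ho⟩ := hle ((φ p i0 - φ g0 i0) • u i0) p (by
          intro j
          rw [hsm]
          split_ifs with h
          · rw [h]; omega
          · omega)
        have ho' : ∀ j, φ p j = (if j = i0 then φ p i0 - φ g0 i0 else 0) + φ o j := by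
          intro j
          conv_lhs => rw [ho]
          rw [map_add, Pi.add_apply, hsm]
        have hoi : φ o i0 = φ g0 i0 := by
          have := ho' i0
          rw [if_pos rfl] at this
          omega
        have hli : l ≠ i0 := by
          rintro rfl
          exact h1 hpl
        have hol : φ o l < φ g0 l := by
          have := ho' l
          rw [if_neg hli] at this
          omega
        have hc : c o = i0 := if_neg (by omega)
        have hv' : v = o + (φ p i0 - φ g0 i0) • u (c o) + i • g0 := by
          rw [hc, add_comm o, ← ho, add_comm]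
          exact hp
        refine ⟨o, (hO o).2 ⟨?_, Or.inr ⟨hoi, l, hli, hol⟩⟩, φ p i0 - φ g0 i0, i, hv'⟩
        refine le_trans ?_ hv
        rw [hv', add_assoc]
        exact le_add_of_nonneg_right (h0 _))
    (by
      intro o ho o' ho' y y' a b hab
      have hP := ((hO o).1 ho).2
      have hP' := ((hO o').1 ho').2
      have key : ∀ (p p' : A) (a b : ℕ), (∃ l, φ p l < φ g0 l) → p + a • g0 = p' + b • g0 →
          ¬ a < b := by
        rintro p p' a b ⟨l, hl⟩ h hlt
        obtain ⟨r, rfl⟩ := Nat.exists_eq_add_of_lt hlt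
        have e1 : p' + (a + r + 1) • g0 = p' + r • g0 + g0 + a • g0 := by
          simp only [add_nsmul, one_nsmul]; abel
        rw [e1] at h
        have h2 := add_right_cancel h
        rw [h2, map_add, Pi.add_apply] at hl
        omega
      have hab' : a = b := by
        have b1 := key _ _ a b (hE o hP y) hab
        have b2 := key _ _ b a (hE o' hP' y') hab.symm
        omega
      subst hab'
      have hpp := add_right_cancel hab
      have hco : ∀ j, φ o j + (if j = c o then y else 0) =
          φ o' j + (if j = c o' then y' else 0) := by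
        intro j
        have := congrFun (congrArg φ hpp) j
        rwa [map_add, map_add, Pi.add_apply, Pi.add_apply, hsm, hsm] at this
      have fin : c o = c o' → y = y' → o = o' ∧ y = y' := by
        intro h1 h2
        subst h2
        rw [h1] at hpp
        exact ⟨add_right_cancel hpp, rfl⟩
      rcases hP with ⟨h1, h2⟩ | ⟨h1, _⟩ <;> rcases hP' with ⟨h1', h2'⟩ | ⟨h1', _⟩
      · have c1 : c o = k := if_pos h1
        have c2 : c o' = k := if_pos h1'
        apply fin (c1.trans c2.symm)
        have := hco k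
        rw [c1, c2, if_pos rfl, if_pos rfl] at this
        omega
      · have c1 : c o = k := if_pos h1
        have := hco i0
        rw [c1, if_neg hk.symm] at this
        omega
      · have c2 : c o' = k := if_pos h1'
        have := hco i0
        rw [c2, if_neg hk.symm] at this
        omega
      · have c1 : c o = i0 := if_neg (by omega)
        have c2 : c o' = i0 := if_neg (by omega)
        apply fin (c1.trans c2.symm)
        have := hco i0
        rw [c1, c2, if_pos rfl, if_pos rfl] at this
        omega)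
  rw [← Set.ncard_eq_toFinset_card _ hNfin, ← Set.ncard_eq_toFinset_card _ hGfin,
    ← Set.ncard_eq_toFinset_card _ (hfin' F)] at hmain
  have hsub : {x | x ∉ S} ⊆ {x | x ≤ F} := fun x hx => not_lt.mp fun h => hx (hF x h)
  have hsplit : {x | x ∈ S ∧ x < F}.ncard + {x | x ∉ S}.ncard ≤ {x | x ≤ F}.ncard := by
    rw [← Set.ncard_union_eq _ hNfin ((hfin' F).subset hsub)]
    · apply Set.ncard_le_ncard _ (hfin' F)
      rintro x (hx | hx)
      · exact hx.2.le
      · exact hsub hx
    · rw [Set.disjoint_left]
      intro x hx hx'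
      exact hx' hx.1
  rw [mul_comm]
  omega

/-- `ℕ^d` ordered by `lt` -/
def V (d : ℕ) (_lt : (Fin d → ℕ) → (Fin d → ℕ) → Prop) : Type := Fin d → ℕ

instance (d : ℕ) (lt : (Fin d → ℕ) → (Fin d → ℕ) → Prop) : AddCommMonoid (V d lt) :=
  (inferInstance : AddCommMonoid (Fin d → ℕ))

noncomputable instance (d : ℕ) (lt : (Fin d → ℕ) → (Fin d → ℕ) → Prop)
    [h : IsStrictTotalOrder (Fin d → ℕ) lt] : LinearOrder (V d lt) :=
  @linearOrderOfSTO (Fin d → ℕ) lt h (Classical.decRel lt)

theorem extended (d : ℕ) (hd : 2 ≤ d) (lt : (Fin d → ℕ) → (Fin d → ℕ) → Prop)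
    (hsto : IsStrictTotalOrder (Fin d → ℕ) lt)
    (hadd : ∀ a b c, lt a b → lt (a + c) (b + c)) (h0 : ∀ a, a = 0 ∨ lt 0 a)
    (hfin : ∀ a, {x | lt x a}.Finite) (S : AddSubmonoid (Fin d → ℕ)) (F : Fin d → ℕ)
    (hFS : F ∉ S) (hF : ∀ h, h ∉ S → h = F ∨ lt h F) :
    {x | x ∈ S ∧ lt x F}.ncard + {x | x ∉ S}.ncard + 1 ≤
      {x | x ∈ S ∧ lt x F}.ncard *
        {g | g ∈ S ∧ g ≠ 0 ∧ ∀ a ∈ S, ∀ b ∈ S, a + b = g → a = 0 ∨ b = 0}.ncard := by
  have hlt : ∀ a b : V d lt, a < b ↔ lt a b := fun a b => Iff.rfl
  have : IsOrderedCancelAddMonoid (V d lt) := by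
    apply IsOrderedCancelAddMonoid.of_add_lt_add_left
    intro a b c h
    rw [add_comm a, add_comm a]
    exact hadd b c a h
  exact mid (A := V d lt) hd (AddEquiv.refl _)
    (by
      intro a
      rcases h0 a with h | h
      · exact le_of_eq h.symm
      · exact le_of_lt ((hlt 0 a).2 h))
    hfin S F hFS
    (by
      intro z hz
      by_contra hc
      rcases hF z hc with h | h
      · exact absurd hz (by rw [h]; exact lt_irrefl (α := V d lt) _)
      · exact absurd hz (not_lt.mpr (le_of_lt ((hlt z F).2 h))))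

end Pool.Agent.H306Z.Wilf
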