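import Pool.Agent.H306Z.Wilf.Cap

/-! Wilf's inequality up to the factor `log 2`. -/

set_option autoImplicit false

namespace Pool.Agent.H306Z.Wilf

open Finset

theorem log_two_le (m : ℕ) (hm : 1 ≤ m) :
    Real.log 2 ≤ ∑ s ∈ range m, 1 / ((m : ℝ) + s) := by
  have key : ∀ k : ℕ, Real.log ((m : ℝ) + k) - Real.log m ≤ ∑ s ∈ range k, 1 / ((m : ℝ) + s) := by
    intro k
    induction k with
    | zero => simp
    | succ k ih =>
      rw [sum_range_succ]
      have hm' : (1 : ℝ) ≤ m := by exact_mod_cast hm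
      have hpos : (0 : ℝ) < (m : ℝ) + k := by positivity
      have h1 : Real.log (((m : ℝ) + k + 1) / ((m : ℝ) + k)) ≤ ((m : ℝ) + k + 1) / ((m : ℝ) + k) - 1 :=
        Real.log_le_sub_one_of_pos (by positivity)
      rw [Real.log_div (by positivity) hpos.ne'] at h1
      have h2 : ((m : ℝ) + k + 1) / ((m : ℝ) + k) - 1 = 1 / ((m : ℝ) + k) := by
        field_simp; ring
      push_cast
      rw [← add_assoc]
      linarith
  have h := key m
  have hm' : (0 : ℝ) < m := by exact_mod_cast hm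
  have e : Real.log ((m : ℝ) + m) = Real.log 2 + Real.log m := by
    rw [← two_mul, Real.log_mul (by norm_num) hm'.ne']
  linarith

theorem one (S : AddSubmonoid ℕ) (F m : ℕ) (hFS : F ∉ S) (hF : ∀ z, F < z → z ∈ S)
    (hmS : m ∈ S) (hm0 : 0 < m) (hmin : ∀ s ∈ S, s ≠ 0 → m ≤ s) :
    Real.log 2 * ((F : ℝ) + 1) + (1 - Real.log 2) * m ≤
      ({g | g ∈ S ∧ g ≠ 0 ∧ ∀ a ∈ S, ∀ b ∈ S, a + b = g → a = 0 ∨ b = 0}.ncard : ℝ) *
        ({x | x ∈ S ∧ x ≤ F}.ncard : ℝ) := by
  classical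
  have hGfin : {g | g ∈ S ∧ g ≠ 0 ∧ ∀ a ∈ S, ∀ b ∈ S, a + b = g → a = 0 ∨ b = 0}.Finite := by
    refine (Set.finite_Iic (2 * F + 2)).subset ?_
    rintro g ⟨_, _, hirr⟩
    by_contra hc
    simp only [Set.mem_Iic, not_le] at hc
    rcases hirr (F + 1) (hF _ (by omega)) (g - (F + 1)) (hF _ (by omega)) (by omega) with h | h
    · omega
    · omega
  have hNfin : {x | x ∈ S ∧ x ≤ F}.Finite := (Set.finite_Iic F).subset fun x hx => hx.2
  have hfac := factor (A := ℕ) (fun a => Nat.zero_le a) S hGfin.toFinset (by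
    intro s hs hs0 hirr
    rw [Set.Finite.mem_toFinset]
    exact ⟨hs, hs0, hirr⟩)
  have hx := fun s : ℕ => hfac (F + 1 + s) (hF _ (by omega))
  choose x hx using hx
  have hGm : ∀ g ∈ hGfin.toFinset, m ≤ g := by
    intro g hg
    rw [Set.Finite.mem_toFinset] at hg
    exact hmin g hg.1 hg.2.1
  have htot := total (A := ℕ) (fun a => Nat.zero_le a) S F m hmS hm0 hGfin.toFinset
    (by intro g hg; rw [Set.Finite.mem_toFinset] at hg; exact hg.1)
    hNfin.toFinset (by intro v hv hvF; rw [Set.Finite.mem_toFinset]; exact ⟨hv, hvF⟩)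
    (range m) (fun s => F + 1 + s) x (fun s g => (g - s - 1) / m + 1)
    (fun s _ => by omega) (fun s _ => hx s)
    (by
      intro s hs g hg κ hκ
      rw [mem_range] at hs
      have h1 := hGm g hg
      have h2 : κ * m ≤ (g - s - 1) / m * m := Nat.mul_le_mul_right m (by omega)
      have h3 := Nat.div_mul_le_self (g - s - 1) m
      simp only [smul_eq_mul]
      omega)
    (by
      intro s hs s' hs' a b hab
      rw [mem_range] at hs hs'
      simp only [smul_eq_mul] at hab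
      have h1 : (s + a * m) % m = (s' + b * m) % m := by
        congr 1; omega
      rwa [Nat.add_mul_mod_self_right, Nat.add_mul_mod_self_right, Nat.mod_eq_of_lt hs,
        Nat.mod_eq_of_lt hs'] at h1)
  rw [← Set.ncard_eq_toFinset_card _ hNfin, ← Set.ncard_eq_toFinset_card _ hGfin] at htot
  have hcls : ∀ s ∈ range m, F + 1 + s ≤
      (m + s) * ∑ g ∈ hGfin.toFinset, x s g * ((g - s - 1) / m + 1) := by
    intro s hs
    rw [mem_range] at hs
    conv_lhs => rw [← hx s]
    rw [mul_sum]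
    apply sum_le_sum
    intro g hg
    have h1 := hGm g hg
    have h2 : g - s - 1 < ((g - s - 1) / m + 1) * m := by
      have := Nat.lt_div_mul_add (a := g - s - 1) hm0
      rw [add_mul, one_mul]
      exact this
    set k := (g - s - 1) / m + 1 with hk
    have hk1 : 1 ≤ k := Nat.le_add_left 1 _
    have h3 : g ≤ (m + s) * k := by
      have : s ≤ s * k := Nat.le_mul_of_pos_right s hk1
      rw [add_mul, mul_comm m k]
      omega
    calc x s g • g = x s g * g := smul_eq_mul _ _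
      _ ≤ x s g * ((m + s) * k) := Nat.mul_le_mul_left _ h3
      _ = (m + s) * (x s g * k) := by ring
  have hcm : m ≤ F + 1 := hmin _ (hF _ (by omega)) (by omega)
  have hm' : (0 : ℝ) < m := by exact_mod_cast hm0
  have hcm' : (m : ℝ) ≤ F + 1 := by exact_mod_cast hcm
  have hreal : ∑ s ∈ range m, (1 + (((F : ℝ) + 1) - m) * (1 / ((m : ℝ) + s))) ≤
      ∑ s ∈ range m,
        ((∑ g ∈ hGfin.toFinset, x s g * ((g - s - 1) / m + 1) : ℕ) : ℝ) := by
    apply sum_le_sum
    intro s hs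
    have h1 := hcls s hs
    set Φ := ∑ g ∈ hGfin.toFinset, x s g * ((g - s - 1) / m + 1)
    have h2 : (F : ℝ) + 1 + s ≤ ((m : ℝ) + s) * Φ := by exact_mod_cast h1
    have hpos : (0 : ℝ) < (m : ℝ) + s := by positivity
    have e : 1 + (((F : ℝ) + 1) - m) * (1 / ((m : ℝ) + s)) = ((F : ℝ) + 1 + s) / ((m : ℝ) + s) := by
      field_simp; ring
    rw [e, div_le_iff₀ hpos]
    linarith
  rw [sum_add_distrib, ← mul_sum, ← Nat.cast_sum] at hreal
  simp only [sum_const, card_range, nsmul_eq_mul, mul_one] at hreal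
  have hlog := log_two_le m hm0
  have h3 : (((F : ℝ) + 1) - m) * Real.log 2 ≤
      (((F : ℝ) + 1) - m) * ∑ s ∈ range m, 1 / ((m : ℝ) + s) :=
    mul_le_mul_of_nonneg_left hlog (by linarith)
  have h4 : ((∑ s ∈ range m, ∑ g ∈ hGfin.toFinset, x s g * ((g - s - 1) / m + 1) : ℕ) : ℝ) ≤
      (({g | g ∈ S ∧ g ≠ 0 ∧ ∀ a ∈ S, ∀ b ∈ S, a + b = g → a = 0 ∨ b = 0}.ncard *
        {x | x ∈ S ∧ x ≤ F}.ncard : ℕ) : ℝ) := by exact_mod_cast htot
  push_cast at h4 hreal
  have _ := hFS
  linarith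

end Pool.Agent.H306Z.Wilf
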