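import Pool.Agent.H306Z.Wilf.Cap

/-! Rays of residue classes modulo the least nonzero element. -/

set_option autoImplicit false

namespace Pool.Agent.H306Z.Wilf

open Finset

variable {A : Type*} [AddCommMonoid A] [LinearOrder A] [IsOrderedCancelAddMonoid A]

/-- `z` can be charged `φ / 2` whatever its factorisation -/
def Good (F g0 : A) (G : Finset A) (z : A) (φ : ℕ) : Prop :=
  ∀ x : A → ℕ, ∑ g ∈ G, x g • g = z →
    ∃ k : A → ℕ, (∀ g ∈ G, ∀ κ < k g, z + κ • g0 ≤ F + g) ∧ φ ≤ 2 * ∑ g ∈ G, x g * k g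

theorem goodB (h0 : ∀ a : A, 0 ≤ a) (harch : ∀ b : A, 0 < b → ∀ a : A, ∃ i : ℕ, a < i • b)
    {F g0 : A} (hg0pos : 0 < g0) {G : Finset A} (hG : ∀ g ∈ G, g0 ≤ g) {z : A} {φ : ℕ}
    (hFz : F < z) (hz : z ≤ F + g0) (hφ : (φ - 1) • g0 ≤ z) : Good F g0 G z φ := by
  classical
  intro x hx
  have hex : ∀ g : A, ∃ i : ℕ, g < (i + 1) • g0 := by
    intro g
    obtain ⟨i, hi⟩ := harch g0 hg0pos g
    exact ⟨i, lt_of_lt_of_le hi (by rw [succ_nsmul]; exact le_add_of_nonneg_right (h0 _))⟩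
  let k : A → ℕ := fun g => Nat.find (hex g)
  have hk1 : ∀ g, g < (k g + 1) • g0 := fun g => Nat.find_spec (hex g)
  have hk2 : ∀ g, ∀ κ < k g, (κ + 1) • g0 ≤ g := fun g κ hκ =>
    not_lt.mp (Nat.find_min (hex g) hκ)
  have hk3 : ∀ g ∈ G, 1 ≤ k g := by
    intro g hg
    by_contra hc
    have : k g = 0 := by omega
    have h1 := hk1 g
    rw [this] at h1
    simp only [zero_add, one_nsmul] at h1
    exact absurd (hG g hg) (not_le.mpr h1)
  refine ⟨k, ?_, ?_⟩
  · intro g _ κ hκ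
    calc z + κ • g0 ≤ F + g0 + κ • g0 := by gcongr
      _ = F + (κ + 1) • g0 := by rw [succ_nsmul]; abel
      _ ≤ F + g := by gcongr; exact hk2 g κ hκ
  · have hlt : ∀ g ∈ G, g < (2 * k g) • g0 := by
      intro g hg
      refine lt_of_lt_of_le (hk1 g) ?_
      exact (nsmul_left_strictMono hg0pos).monotone (by have := hk3 g hg; omega)
    have hz0 : 0 < z := lt_of_le_of_lt (h0 F) hFz
    have hex2 : ∃ g ∈ G, x g ≠ 0 := by
      by_contra hc
      push Not at hc
      have : ∑ g ∈ G, x g • g = 0 := sum_eq_zero fun g hg => by rw [hc g hg, zero_nsmul]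
      rw [hx] at this
      exact absurd this hz0.ne'
    have hsum : z < ∑ g ∈ G, x g • ((2 * k g) • g0) := by
      rw [← hx]
      apply sum_lt_sum
      · intro g hg
        exact nsmul_le_nsmul_right (hlt g hg).le _
      · obtain ⟨g, hg, hxg⟩ := hex2
        exact ⟨g, hg, nsmul_lt_nsmul_right hxg (hlt g hg)⟩
    have e : ∑ g ∈ G, x g • ((2 * k g) • g0) = (2 * ∑ g ∈ G, x g * k g) • g0 := by
      rw [mul_sum, ← sum_nsmul_assoc]
      apply sum_congr rfl
      intro g _
      rw [← mul_nsmul']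
      congr 1
      ring
    rw [e] at hsum
    have := (nsmul_left_strictMono hg0pos).lt_iff_lt.mp (lt_of_le_of_lt hφ hsum)
    omega

theorem goodC (_h0 : ∀ a : A, 0 ≤ a) {F g0 : A} (hg0pos : 0 < g0) {G : Finset A} {p e : A}
    (β : A →+ ℕ) (hβ : ∀ a, β a • e ≤ a) {ν Y : ℕ} (hν : 1 ≤ ν)
    (h1 : p + (ν - 1) • g0 ≤ F) (h2 : ν • g0 ≤ e) (h3 : Y ≤ β (p + e)) :
    Good F g0 G (p + e) (2 * (Y * ν)) := by
  intro x hx
  refine ⟨fun g => β g * ν, ?_, ?_⟩
  · intro g _ κ hκ
    simp only at hκ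
    obtain ⟨b, hb⟩ : ∃ b, β g = b + 1 := by
      refine ⟨β g - 1, ?_⟩
      rcases Nat.eq_zero_or_pos (β g) with h | h
      · rw [h] at hκ; simp at hκ
      · omega
    have hκ' : κ ≤ (ν - 1) + b * ν := by
      rw [hb, add_mul, one_mul] at hκ; omega
    have e1 : κ • g0 ≤ ((ν - 1) + b * ν) • g0 := (nsmul_left_strictMono hg0pos).monotone hκ'
    have e2 : (b * ν) • g0 ≤ b • e := by
      rw [mul_nsmul']
      exact nsmul_le_nsmul_right h2 b
    calc p + e + κ • g0 ≤ p + e + ((ν - 1) + b * ν) • g0 := by gcongr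
      _ = p + (ν - 1) • g0 + (e + (b * ν) • g0) := by rw [add_nsmul]; abel
      _ ≤ F + (e + b • e) := by gcongr
      _ = F + β g • e := by rw [hb, succ_nsmul]; abel
      _ ≤ F + g := by gcongr; exact hβ g
  · have ee : β (p + e) = ∑ g ∈ G, x g * β g := by
      rw [← hx, map_sum]
      apply sum_congr rfl
      intro g _
      rw [map_nsmul, smul_eq_mul]
    have : ∑ g ∈ G, x g * (β g * ν) = β (p + e) * ν := by
      rw [ee, sum_mul]
      apply sum_congr rfl
      intro g _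
      ring
    rw [this]
    have := Nat.mul_le_mul_right ν h3
    omega

theorem ray (h0 : ∀ a : A, 0 ≤ a) (harch : ∀ b : A, 0 < b → ∀ a : A, ∃ i : ℕ, a < i • b)
    {F g0 : A} (hg0pos : 0 < g0) {G : Finset A} (hG : ∀ g ∈ G, g0 ≤ g) {o e : A} (ho : o ≤ F)
    (hepos : 0 < e) (β : A →+ ℕ) (hβ : ∀ a, β a • e ≤ a) (hβe : β e = 1) :
    ∃ (L : ℕ) (ν φ : ℕ → ℕ),
      (∀ y i : ℕ, o + y • e + i • g0 ≤ F → y < L ∧ i < ν y) ∧
      (∀ y < L, F < o + y • e + ν y • g0) ∧
      (∀ y < L, Good F g0 G (o + y • e + ν y • g0) (φ y)) ∧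
      2 * ∑ y ∈ range L, ν y + 1 ≤ ∑ y ∈ range L, φ y := by
  classical
  have hexν : ∀ y : ℕ, ∃ i : ℕ, F < o + y • e + i • g0 := by
    intro y
    obtain ⟨i, hi⟩ := harch g0 hg0pos F
    exact ⟨i, lt_of_lt_of_le hi (le_add_of_nonneg_left (h0 _))⟩
  have hexY : ∃ y : ℕ, F < o + (y + 1) • e := by
    obtain ⟨i, hi⟩ := harch e hepos F
    refine ⟨i, lt_of_lt_of_le hi ?_⟩
    rw [succ_nsmul]
    exact le_trans (le_add_of_nonneg_right (h0 _)) (le_add_of_nonneg_left (h0 _))
  let ν : ℕ → ℕ := fun y => Nat.find (hexν y)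
  obtain ⟨Y, hY1, hY2⟩ : ∃ Y : ℕ, F < o + (Y + 1) • e ∧ ∀ y ≤ Y, o + y • e ≤ F := by
    refine ⟨Nat.find hexY, Nat.find_spec hexY, ?_⟩
    intro y hy
    rcases Nat.eq_zero_or_pos y with h | h
    · subst h; simpa using ho
    · have := Nat.find_min hexY (show y - 1 < Nat.find hexY by omega)
      have e1 : y - 1 + 1 = y := by omega
      rw [e1] at this
      exact not_lt.mp this
  have hν1 : ∀ y, F < o + y • e + ν y • g0 := fun y => Nat.find_spec (hexν y)
  have hν2 : ∀ y, ∀ i < ν y, o + y • e + i • g0 ≤ F := fun y i hi =>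
    not_lt.mp (Nat.find_min (hexν y) hi)
  have hν3 : ∀ y ≤ Y, 1 ≤ ν y := by
    intro y hy
    by_contra hc
    have h1 : ν y = 0 := by omega
    have h2 := hν1 y
    rw [h1, zero_nsmul, add_zero] at h2
    exact absurd (hY2 y hy) (not_le.mpr h2)
  have hν4 : ν (Y + 1) = 0 := by
    apply (Nat.find_eq_zero _).mpr
    simpa using hY1
  have hcov : ∀ y i : ℕ, o + y • e + i • g0 ≤ F → y < Y + 2 ∧ i < ν y := by
    intro y i h
    constructor
    · by_contra hc
      have h1 : (Y + 1) • e ≤ y • e := (nsmul_left_strictMono hepos).monotone (by omega)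
      have h2 : o + (Y + 1) • e ≤ o + y • e + i • g0 :=
        le_trans (by gcongr) (le_add_of_nonneg_right (h0 _))
      exact absurd (lt_of_lt_of_le hY1 (h2.trans h)) (lt_irrefl _)
    · by_contra hc
      have h1 : ν y • g0 ≤ i • g0 := (nsmul_left_strictMono hg0pos).monotone (by omega)
      have h2 : o + y • e + ν y • g0 ≤ o + y • e + i • g0 := by gcongr
      exact absurd (lt_of_lt_of_le (hν1 y) (h2.trans h)) (lt_irrefl _)
  have hB : ∀ y ≤ Y, o + y • e + ν y • g0 ≤ F + g0 := by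
    intro y hy
    have h1 := hν3 y hy
    have h2 := hν2 y (ν y - 1) (by omega)
    have e1 : ν y = (ν y - 1) + 1 := by omega
    calc o + y • e + ν y • g0 = o + y • e + (ν y - 1) • g0 + g0 := by
          conv_lhs => rw [e1, succ_nsmul]
          abel
      _ ≤ F + g0 := by gcongr
  -- the comparison used in both pairings
  have hpair : ∀ (M y : ℕ), y ≤ M → 1 ≤ ν (M - y) →
      (ν (M - y) - 1) • g0 ≤ o + y • e + ν M • g0 := by
    intro M y hy h1
    have h2 := hν2 (M - y) (ν (M - y) - 1) (by omega)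
    have h3 := lt_of_le_of_lt h2 (hν1 M)
    have e1 : o + M • e + ν M • g0 = o + (M - y) • e + (y • e + ν M • g0) := by
      have : M = (M - y) + y := by omega
      conv_lhs => rw [this, add_nsmul, ← this]
      abel
    rw [e1] at h3
    have h4 := (lt_of_add_lt_add_left h3).le
    refine h4.trans ?_
    rw [add_assoc]
    exact le_add_of_nonneg_left (h0 _)
  by_cases hcase : o + (Y + 1) • e ≤ F + g0
  · refine ⟨Y + 2, ν, fun y => ν y + ν (Y + 1 - y) + (if y = 0 then 1 else 0), hcov,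
      fun y _ => hν1 y, ?_, ?_⟩
    · intro y hy
      apply goodB h0 harch hg0pos hG (hν1 y)
      · rcases Nat.lt_or_ge y (Y + 1) with h | h
        · exact hB y (by omega)
        · have : y = Y + 1 := by omega
          subst this
          rw [hν4, zero_nsmul, add_zero]; exact hcase
      · rcases Nat.eq_zero_or_pos y with h | h
        · subst h
          simp only [Nat.sub_zero, hν4, add_zero, if_true, Nat.add_sub_cancel]
          exact le_add_of_nonneg_left (h0 _)
        · have h1 : 1 ≤ ν (Y + 1 - y) := hν3 _ (by omega)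
          have h2 := hpair (Y + 1) y (by omega) h1
          rw [hν4, zero_nsmul, add_zero] at h2
          have e1 : ν y + ν (Y + 1 - y) + (if y = 0 then 1 else 0) - 1
              = (ν (Y + 1 - y) - 1) + ν y := by
            rw [if_neg (by omega)]; omega
          rw [e1, add_nsmul]
          gcongr
    · rw [sum_add_distrib, sum_add_distrib]
      have r := sum_range_reflect ν (Y + 2)
      have e1 : ∑ y ∈ range (Y + 2), ν (Y + 1 - y) = ∑ y ∈ range (Y + 2), ν y := by
        exact r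
      rw [e1]
      simp
      omega
  · push Not at hcase
    have hνY := hν3 Y le_rfl
    have hge : ν Y • g0 ≤ e := by
      have h1 := lt_of_le_of_lt (hB Y le_rfl) hcase
      rw [succ_nsmul, ← add_assoc] at h1
      exact (lt_of_add_lt_add_left h1).le
    refine ⟨Y + 2, ν, fun y => if y ≤ Y then ν y + ν (Y - y) - ν Y else 2 * ((Y + 1) * ν Y), hcov,
      fun y _ => hν1 y, ?_, ?_⟩
    · intro y hy
      by_cases h : y ≤ Y
      · simp only [h, if_true]
        apply goodB h0 harch hg0pos hG (hν1 y) (hB y h)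
        have h1 : 1 ≤ ν (Y - y) := hν3 _ (by omega)
        have h2 := hpair Y y h h1
        rcases Nat.lt_or_ge (ν y + ν (Y - y) - 1) (ν Y) with h3 | h3
        · have : ν y + ν (Y - y) - ν Y - 1 = 0 := by omega
          rw [this, zero_nsmul]; exact h0 _
        · have e1 : (ν y + ν (Y - y) - ν Y - 1) • g0 + ν Y • g0
              = (ν (Y - y) - 1) • g0 + ν y • g0 := by
            rw [← add_nsmul, ← add_nsmul]; congr 1; omega
          apply le_of_add_le_add_right (a := ν Y • g0)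
          rw [e1]
          calc (ν (Y - y) - 1) • g0 + ν y • g0 ≤ o + y • e + ν Y • g0 + ν y • g0 := by gcongr
            _ = o + y • e + ν y • g0 + ν Y • g0 := by abel
      · have : y = Y + 1 := by omega
        subst this
        simp only [h, if_false]
        rw [hν4, zero_nsmul, add_zero, succ_nsmul, ← add_assoc]
        apply goodC h0 hg0pos β hβ hνY (hν2 Y _ (by omega)) hge
        rw [map_add, map_add, map_nsmul, hβe, smul_eq_mul]
        omega
    · rw [sum_range_succ _ (Y + 1), sum_range_succ _ (Y + 1), hν4, if_neg (by omega)]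
      have r := sum_range_reflect ν (Y + 1)
      have e1 : ∑ y ∈ range (Y + 1), ν (Y - y) = ∑ y ∈ range (Y + 1), ν y := by
        exact r
      have e2 : ∑ y ∈ range (Y + 1), (ν y + ν (Y - y)) ≤
          ∑ y ∈ range (Y + 1), ((if y ≤ Y then ν y + ν (Y - y) - ν Y
            else 2 * ((Y + 1) * ν Y)) + ν Y) := by
        apply sum_le_sum
        intro y hy
        rw [if_pos (by rw [mem_range] at hy; omega)]
        omega
      rw [sum_add_distrib, sum_add_distrib, e1] at e2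
      simp only [sum_const, card_range, smul_eq_mul] at e2
      have e3 : 1 ≤ (Y + 1) * ν Y := Nat.mul_pos (by omega) hνY
      omega

theorem global (h0 : ∀ a : A, 0 ≤ a) (harch : ∀ b : A, 0 < b → ∀ a : A, ∃ i : ℕ, a < i • b)
    (S : AddSubmonoid A) (F g0 : A) (hF : ∀ z, F < z → z ∈ S) (hg0 : g0 ∈ S) (hg0pos : 0 < g0)
    (G : Finset A) (hGS : ∀ g ∈ G, g ∈ S) (hG : ∀ g ∈ G, g0 ≤ g)
    (hfac : ∀ s ∈ S, ∃ x : A → ℕ, ∑ g ∈ G, x g • g = s)
    (N : Finset A) (hN : ∀ v ∈ S, v ≤ F → v ∈ N) (C : Finset A) (hC : ∀ u ∈ C, u ≤ F)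
    (O : Finset A) (dir : A → A) (β : A → A →+ ℕ) (hO : ∀ o ∈ O, o ≤ F) (hOne : O.Nonempty)
    (hdir : ∀ o, 0 < dir o) (hβ : ∀ o a, β o a • dir o ≤ a) (hβe : ∀ o, β o (dir o) = 1)
    (hcov : ∀ u, u ≤ F → ∃ o ∈ O, ∃ y i : ℕ, u = o + y • dir o + i • g0)
    (hinj : ∀ o ∈ O, ∀ o' ∈ O, ∀ y y' a b : ℕ,
      o + y • dir o + a • g0 = o' + y' • dir o' + b • g0 → o = o' ∧ y = y') :
    C.card + 1 ≤ G.card * N.card := by
  classical
  have hray := fun (o : A) (ho : o ∈ O) =>
    ray h0 harch hg0pos hG (hO o ho) (hdir o) (β o) (hβ o) (hβe o)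
  choose! L ν φ h1 h2 h3 h4 using hray
  let T : Finset (Σ _ : A, ℕ) := O.sigma fun o => range (L o)
  let z : (Σ _ : A, ℕ) → A := fun t => t.1 + t.2 • dir t.1 + ν t.1 t.2 • g0
  have hT : ∀ t ∈ T, t.1 ∈ O ∧ t.2 < L t.1 := by
    intro t ht
    simpa [T] using ht
  have hz : ∀ t ∈ T, F < z t := fun t ht => h2 t.1 (hT t ht).1 t.2 (hT t ht).2
  have hx := fun t (ht : t ∈ T) => hfac (z t) (hF _ (hz t ht))
  choose! x hx using hx
  have hk := fun t (ht : t ∈ T) => h3 t.1 (hT t ht).1 t.2 (hT t ht).2 (x t) (hx t ht)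
  choose! k hk1 hk2 using hk
  have htot := total h0 S F g0 hg0 hg0pos G hGS N hN T z x k hz hx hk1 (by
    rintro ⟨o, y⟩ ht ⟨o', y'⟩ ht' a b hab
    have := hinj o (hT _ ht).1 o' (hT _ ht').1 y y' (ν o y + a) (ν o' y' + b) (by
      simp only [z] at hab
      rw [add_nsmul, add_nsmul, ← add_assoc, ← add_assoc]
      exact hab)
    obtain ⟨rfl, rfl⟩ := this
    rfl)
  have hφ : ∑ t ∈ T, φ t.1 t.2 ≤ 2 * (G.card * N.card) := by
    calc ∑ t ∈ T, φ t.1 t.2 ≤ ∑ t ∈ T, 2 * ∑ g ∈ G, x t g * k t g := sum_le_sum hk2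
      _ = 2 * ∑ t ∈ T, ∑ g ∈ G, x t g * k t g := by rw [mul_sum]
      _ ≤ _ := by omega
  have hCc : C.card ≤ ∑ o ∈ O, ∑ y ∈ range (L o), ν o y := by
    have hU : (O.sigma fun o => (range (L o)).sigma fun y => range (ν o y)).card
        = ∑ o ∈ O, ∑ y ∈ range (L o), ν o y := by
      rw [card_sigma]
      apply sum_congr rfl
      intro o _
      rw [card_sigma]
      simp
    rw [← hU]
    refine le_trans (card_le_card ?_) (card_image_le
      (f := fun u : (Σ _ : A, Σ _ : ℕ, ℕ) => u.1 + u.2.1 • dir u.1 + u.2.2 • g0))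
    intro u hu
    obtain ⟨o, ho, y, i, hui⟩ := hcov u (hC u hu)
    have := h1 o ho y i (by rw [← hui]; exact hC u hu)
    rw [mem_image]
    refine ⟨⟨o, y, i⟩, ?_, hui.symm⟩
    simp [ho, this.1, this.2]
  have hsum : ∑ o ∈ O, (2 * ∑ y ∈ range (L o), ν o y + 1) ≤ ∑ t ∈ T, φ t.1 t.2 := by
    rw [sum_sigma]
    exact sum_le_sum h4
  rw [sum_add_distrib, ← mul_sum] at hsum
  simp only [sum_const, smul_eq_mul, mul_one] at hsum
  have := hOne.card_pos
  omega

end Pool.Agent.H306Z.Wilf
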